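import Pool.Agent.H97.PR.Targets

/-! Row RKB of the board `pry_modules`: rank and dimension. -/

set_option autoImplicit false

namespace Pool.Agent.H11.PR

open Finset Pool.Agent.H97.PR

theorem dm_mono {n : ℕ} {V V' : Submodule (ZMod 2) (E n)} (h : V ≤ V') : dm V ≤ dm V' :=
  Submodule.finrank_mono h

theorem rk_add {n N : ℕ} (blk : Fin n → Fin N) (V : Submodule (ZMod 2) (E n))
    (J : Finset (Fin N)) : rk blk V J + dm (V ⊓ zr blk J) = dm V :=
  Nat.sub_add_cancel (dm_mono inf_le_left)

theorem zr_anti {n N : ℕ} (blk : Fin n → Fin N) {J J' : Finset (Fin N)} (h : J ⊆ J') :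
    zr blk J' ≤ zr blk J := fun _ hx i hi => hx i (h hi)

theorem zr_empty {n N : ℕ} (blk : Fin n → Fin N) : zr blk (∅ : Finset (Fin N)) = ⊤ := by
  refine top_le_iff.1 ?_
  intro x _ i hi
  exact absurd hi (Finset.notMem_empty _)

theorem zr_union {n N : ℕ} (blk : Fin n → Fin N) (J' J : Finset (Fin N)) :
    zr blk (J' ∪ J) = zr blk J' ⊓ zr blk J := by
  refine le_antisymm (le_inf (zr_anti blk Finset.subset_union_left)
    (zr_anti blk Finset.subset_union_right)) ?_
  intro x hx i hi
  rcases Finset.mem_union.1 hi with h | h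
  · exact hx.1 i h
  · exact hx.2 i h

theorem pf_RKB : T_RKB := by
  intro n N blk V V' J J'
  have h1 := rk_add blk V J
  refine ⟨h1, ?_, fun h => ?_, fun h => ?_, fun h hd => ?_, ?_, fun h => dm_mono h⟩
  · unfold rk
    rw [zr_empty, inf_top_eq, Nat.sub_self]
  · have h2 := rk_add blk V J'
    have h3 : dm (V ⊓ zr blk J') ≤ dm (V ⊓ zr blk J) := dm_mono (inf_le_inf_left V (zr_anti blk h))
    omega
  · have h2 := rk_add blk V' J
    have h3 := Submodule.finrank_sup_add_finrank_inf_eq V (zr blk J)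
    have h4 := Submodule.finrank_sup_add_finrank_inf_eq V' (zr blk J)
    have h5 : Module.finrank (ZMod 2) ↥(V ⊔ zr blk J) ≤ Module.finrank (ZMod 2) ↥(V' ⊔ zr blk J) :=
      Submodule.finrank_mono (sup_le_sup_right h _)
    unfold dm at h1 h2
    omega
  · have h2 := rk_add blk V' J
    have h3 : dm (V' ⊓ zr blk J) ≤ dm (V ⊓ zr blk J) := dm_mono (inf_le_inf_right _ h)
    omega
  · have h2 := rk_add blk (V ⊓ zr blk J') J
    have h3 := rk_add blk V J'
    have h4 := rk_add blk V (J' ∪ J)
    rw [zr_union, ← inf_assoc] at h4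
    omega

end Pool.Agent.H11.PR
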